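import Pool.Agent.helper81.NU.Spec

/-! Row nu:CA1U of project NU (MP_133bfc_co). -/

set_option autoImplicit false

namespace Pool.Agent.helper81.NU

open Pool.Agent.helper84.NR
open scoped Classical
open Finset

theorem CA1U_side (hN2 : N2_stmt) (V F : Type) (M : PMap V F) (A f : F) (m : ℕ) (a : ℕ → V)
    (hinj : ∀ i j, i ≤ m → j ≤ m → a i = a j → i = j) (hE : ∀ j, j < m → OnE M.toCyc A s(a j, a (j + 1)))
    (haA : ∀ i, i ≤ m → OnV M.toCyc A (a i)) (hfA : f ≠ A) (i j : ℕ) (hi : 1 ≤ i) (hij : i < j) (hj : j ≤ m)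
    (hfi : OnV M.toCyc f (a i)) (hfj : OnV M.toCyc f (a j)) : j = i + 1 ∧ OnE M.toCyc f s(a i, a (i + 1)) := by
  have hne : a i ≠ a j := fun h => by
    have := hinj i j (by omega) hj h
    omega
  obtain ⟨h1, h2, -⟩ := M.poly f A hfA (a i) (a j) hne hfi hfj (haA i (by omega)) (haA j hj)
  have h3 : OnE M.toCyc A s(a i, a (i + 1)) := hE i (by omega)
  have h4 : OnE M.toCyc A s(a i, a (i - 1)) := by
    have h5 := hE (i - 1) (by omega)
    have h6 : i - 1 + 1 = i := by omega
    rw [h6, Sym2.eq_swap] at h5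
    exact h5
  have h7 : j = i + 1 := by
    rcases hN2 V F M.toCyc A (a i) (a (i - 1)) (a (i + 1)) (a j) h4 h3 h2 with h | h | h
    · have := hinj _ _ (by omega) (by omega) h
      omega
    · have := hinj _ _ (by omega) (by omega) h
      omega
    · have := hinj _ _ (by omega) (by omega) h
      omega
  refine ⟨h7, ?_⟩
  rw [← h7]
  exact h1

theorem CA1U_mid (hN2 : N2_stmt) (V F : Type) (M : PMap V F) (y z : V) (A B f : F) (m : ℕ) (a : ℕ → V)
    (hinj : ∀ i j, i ≤ m → j ≤ m → a i = a j → i = j) (hE : ∀ j, j < m → OnE M.toCyc A s(a j, a (j + 1)))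
    (hY : ∀ j, j < m → ¬ ∃ B, OnV M.toCyc B y ∧ OnV M.toCyc B (a j))
    (haA : ∀ i, i ≤ m → OnV M.toCyc A (a i)) (hfA : f ≠ A) (hBy : OnV M.toCyc B y) (hzA : OnV M.toCyc A z)
    (hzB : OnV M.toCyc B z) (hzf : OnV M.toCyc f z) (i : ℕ) (hi : 1 ≤ i) (him : i < m)
    (hfi : OnV M.toCyc f (a i)) : i + 1 = m ∧ OnE M.toCyc f s(a i, a (i + 1)) := by
  have hne : a i ≠ z := fun h => hY i him ⟨B, hBy, h ▸ hzB⟩
  obtain ⟨h1, h2, -⟩ := M.poly f A hfA (a i) z hne hfi hzf (haA i (by omega)) hzA
  have h3 : OnE M.toCyc A s(a i, a (i + 1)) := hE i (by omega)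
  have h4 : OnE M.toCyc A s(a i, a (i - 1)) := by
    have h5 := hE (i - 1) (by omega)
    have h6 : i - 1 + 1 = i := by omega
    rw [h6, Sym2.eq_swap] at h5
    exact h5
  rcases hN2 V F M.toCyc A (a i) (a (i - 1)) (a (i + 1)) z h4 h3 h2 with h | h | h
  · have := hinj _ _ (by omega) (by omega) h
    omega
  · exact absurd ⟨B, hBy, h ▸ hzB⟩ (hY (i - 1) (by omega))
  · refine ⟨?_, h ▸ h1⟩
    by_contra h5
    exact hY (i + 1) (by omega) ⟨B, hBy, h ▸ hzB⟩

theorem CA1U (hN2 : N2_stmt) : CA1U_stmt := by
  intro V F M x y A B v m m' a b hno hAx hBy hA hB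
  by_cases hg : (∃ g, Tri M x y A B g) ∧ 2 ≤ m ∧ 2 ≤ m'
  · exact Or.inr hg
  refine Or.inl ?_
  obtain ⟨hE1, hE2⟩ := h_EDG V F M
  obtain ⟨hm, ha0, ham, hainj, haE, haY, haF⟩ := hA
  obtain ⟨hm', hb0, hbm, hbinj, hbE, hbX, hbF⟩ := hB
  have haA : ∀ i, i ≤ m → OnV M.toCyc A (a i) := by
    intro i hi
    rcases Nat.lt_or_ge i m with h | h
    · exact (hE1 A _ _ (haE i h)).1
    · have h1 : i = (m - 1) + 1 := by omega
      rw [h1]
      exact (hE1 A _ _ (haE (m - 1) (by omega))).2.1
  have hbB : ∀ i, i ≤ m' → OnV M.toCyc B (b i) := by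
    intro i hi
    rcases Nat.lt_or_ge i m' with h | h
    · exact (hE1 B _ _ (hbE i h)).1
    · have h1 : i = (m' - 1) + 1 := by omega
      rw [h1]
      exact (hE1 B _ _ (hbE (m' - 1) (by omega))).2.1
  obtain ⟨q, hq⟩ : ∃ q : ℕ → V, q = fun j => if j ≤ m then a j else b (m + m' - j) := ⟨_, rfl⟩
  have hqa : ∀ i, i ≤ m → q i = a i := by
    intro i hi
    rw [hq]
    exact if_pos hi
  have hqb : ∀ i, m ≤ i → q i = b (m + m' - i) := by
    intro i hi
    rcases Nat.lt_or_ge m i with h | h
    · rw [hq]
      exact if_neg (by omega)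
    · have h1 : i = m := by omega
      rw [hqa i h, h1, ham, ← hbm]
      congr 1
      omega
  -- the edges of the second part
  have hedgeB : ∀ k, m ≤ k → k < m + m' → OnE M.toCyc B s(q k, q (k + 1)) := by
    intro k hk hk2
    rw [hqb k hk, hqb (k + 1) (by omega), Sym2.eq_swap]
    have h1 : m + m' - k = (m + m' - (k + 1)) + 1 := by omega
    rw [h1]
    exact hbE _ (by omega)
  have hedgeA : ∀ k, k < m → OnE M.toCyc A s(q k, q (k + 1)) := by
    intro k hk
    rw [hqa k (by omega), hqa (k + 1) (by omega)]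
    exact haE k hk
  have hadj : ∀ i, i < m + m' → Adj M.toCyc (q i) (q (i + 1)) := by
    intro i hi
    rcases Nat.lt_or_ge i m with h | h
    · exact ⟨A, hedgeA i h⟩
    · exact ⟨B, hedgeB i h hi⟩
  refine ⟨m + m', q, ?_, ?_, ?_, hadj, ?_⟩
  · rw [hqa 0 (by omega), ha0]
  · rw [hqb (m + m') (by omega), ← hb0]
    congr 1
    omega
  · -- injectivity
    have key : ∀ i j, i ≤ m → m < j → j ≤ m + m' → q i ≠ q j := by
      intro i j hi hj hj2 h
      rw [hqa i hi, hqb j (by omega)] at h
      exact hbX (m + m' - j) (by omega) ⟨A, hAx, h ▸ haA i hi⟩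
    intro i j hi hj h
    rcases Nat.lt_or_ge m i with h1 | h1
    · rcases Nat.lt_or_ge m j with h2 | h2
      · rw [hqb i (by omega), hqb j (by omega)] at h
        have h3 := hbinj _ _ (by omega) (by omega) h
        omega
      · exact absurd h.symm (key j i h2 h1 hi)
    · rcases Nat.lt_or_ge m j with h2 | h2
      · exact absurd h (key i j h1 h2 hj)
      · rw [hqa i h1, hqa j h2] at h
        exact hainj i j h1 h2 h
  · intro f i j hij hj hfi hfj k hik hkj
    by_cases hf : OnV M.toCyc f x ∨ OnV M.toCyc f y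
    swap
    · -- a face containing neither `x` nor `y`
      rw [not_or] at hf
      obtain ⟨hfx, hfy⟩ := hf
      have hfA : f ≠ A := fun h => hfx (h ▸ hAx)
      have hfB : f ≠ B := fun h => hfy (h ▸ hBy)
      have hi1 : 1 ≤ i := by
        by_contra h
        have h1 : i = 0 := by omega
        rw [h1, hqa 0 (by omega), ha0] at hfi
        exact hfx hfi
      have hj1 : j < m + m' := by
        by_contra h
        have h1 : j = m + m' := by omega
        have h2 : m + m' - (m + m') = 0 := by omega
        rw [h1, hqb (m + m') (by omega), h2, hb0] at hfj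
        exact hfy hfj
      rcases Nat.lt_or_ge m j with hmj | hmj
      · rcases Nat.lt_or_ge i m with him | him
        · -- `i < m < j`
          rw [hqa i (by omega)] at hfi
          rw [hqb j (by omega)] at hfj
          have hz : ∃ z, OnV M.toCyc A z ∧ OnV M.toCyc B z ∧ OnV M.toCyc f z := by
            by_contra hz
            refine hg ⟨⟨f, hfx, hfy, ⟨a i, haA i (by omega), hfi⟩, ⟨b (m + m' - j), hbB _ (by omega), hfj⟩, ?_⟩, by omega, by omega⟩
            intro z hz'
            exact hz ⟨z, hz'⟩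
          obtain ⟨z, hzA, hzB, hzf⟩ := hz
          obtain ⟨h1, h2⟩ := CA1U_mid hN2 V F M y z A B f m a hainj haE haY haA hfA hBy hzA hzB hzf i hi1 him hfi
          obtain ⟨h3, h4⟩ := CA1U_mid hN2 V F M x z B A f m' b hbinj hbE hbX hbB hfB hAx hzB hzA hzf (m + m' - j)
            (by omega) (by omega) hfj
          rcases Nat.lt_or_ge k m with hkm | hkm
          · have h5 : k = i := by omega
            rw [h5, hqa i (by omega), hqa (i + 1) (by omega)]
            exact h2
          · have h5 : m + m' - (k + 1) = m + m' - j := by omega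
            have h6 : m + m' - k = m + m' - j + 1 := by omega
            rw [hqb k hkm, hqb (k + 1) (by omega), h5, h6, Sym2.eq_swap]
            exact h4
        · -- `m ≤ i`
          rw [hqb i him] at hfi
          rw [hqb j (by omega)] at hfj
          obtain ⟨h1, h2⟩ := CA1U_side hN2 V F M B f m' b hbinj hbE hbB hfB (m + m' - j) (m + m' - i)
            (by omega) (by omega) (by omega) hfj hfi
          have h5 : m + m' - (k + 1) = m + m' - j := by omega
          have h6 : m + m' - k = m + m' - j + 1 := by omega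
          rw [hqb k (by omega), hqb (k + 1) (by omega), h5, h6, Sym2.eq_swap]
          exact h2
      · -- `j ≤ m`
        rw [hqa i (by omega)] at hfi
        rw [hqa j hmj] at hfj
        obtain ⟨h1, h2⟩ := CA1U_side hN2 V F M A f m a hainj haE haA hfA i j hi1 (by omega) hmj hfi hfj
        have h5 : k = i := by omega
        rw [h5, hqa i (by omega), hqa (i + 1) (by omega)]
        exact h2
    rcases hf with hf | hf
    · -- a face at `x`
      have hjm : j ≤ m := by
        by_contra h
        rw [hqb j (by omega)] at hfj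
        exact hbX (m + m' - j) (by omega) ⟨f, hf, hfj⟩
      by_cases hfA : f = A
      · rw [hfA]
        exact hedgeA k (by omega)
      · rw [hqa j hjm] at hfj
        have h1 := haF f hf hfA j (by omega) hjm hfj
        have h2 : k = 0 := by omega
        have h3 : OnV M.toCyc f (q 0) := by
          rw [hqa 0 (by omega), ha0]
          exact hf
        have h4 : OnV M.toCyc f (q (0 + 1)) := by
          rw [hqa (0 + 1) (by omega)]
          rw [h1] at hfj
          exact hfj
        rw [h2]
        exact hE2 f _ _ (hadj 0 (by omega)) h3 h4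
    · -- a face at `y`
      have him : m ≤ i := by
        by_contra h
        rw [hqa i (by omega)] at hfi
        exact haY i (by omega) ⟨f, hf, hfi⟩
      by_cases hfB : f = B
      · rw [hfB]
        exact hedgeB k (by omega) (by omega)
      · rw [hqb i him] at hfi
        have h1 := hbF f hf hfB (m + m' - i) (by omega) (by omega) hfi
        have h2 : k = i := by omega
        have h3 : OnV M.toCyc f (q k) := by
          rw [h2, hqb i him]
          exact hfi
        have h4 : OnV M.toCyc f (q (k + 1)) := by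
          rw [hqb (k + 1) (by omega)]
          have h5 : m + m' - (k + 1) = 0 := by omega
          rw [h5, hb0]
          exact hf
        exact hE2 f _ _ (hadj k (by omega)) h3 h4

end Pool.Agent.helper81.NU
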